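import Pool.Agent.BEO.Stmts

/-!
# Squad BEO, row BAO: conclusion
-/

namespace Pool.Agent.BEO.H93

open MeasureTheory
open Pool.Agent.BE01 Pool.Agent.BEO

/-- row BAO -/
theorem bao (ARO : AroStmt) (SPO : SpoStmt) (PHO : PhoStmt) : BaoStmt := by
  intro c R hR
  obtain ⟨x0, hx0, h0, hn⟩ := ARO (c + 1) (by omega)
  obtain ⟨φ, hφ, hE⟩ := PHO c R x0 hR hx0 h0
  refine ⟨(x0 / R) ^ 2, φ, hφ, hE, fun n h2 u hu => ?_⟩
  have hn0 : (0 : ℝ) < n := by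
    have : 0 < n := by omega
    exact_mod_cast this
  refine SPO c R (n * x0) hR (mul_pos hn0 hx0) (fun l => hn n (l + c) h2) u ?_
  have e : (n * x0 / R) ^ 2 = (n : ℝ) ^ 2 * (x0 / R) ^ 2 := by ring
  rw [e]
  exact hu

end Pool.Agent.BEO.H93
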