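import Pool.Agent.Helper93_BEO.ARO
import Pool.Agent.Helper93_BEO.PHO
import Pool.Agent.Helper93_BEO.BAO
import Pool.Agent.Helper27_BEO.LPO
import Pool.Agent.Helper77_BEO.FIO
import Pool.Agent.Helper23_BEO.SUO
import Pool.Agent.Helper95_BEO.COO
import Pool.Agent.Helper44_BEO.EVO
import Pool.Agent.Helper60_BEO.IBO
import Pool.Agent.Helper19_BEO.WEO
import Pool.Agent.Helper69_BEO.DEO
import Pool.Agent.Helper49_BEO.ORO
import Pool.Agent.Helper10_BEO.SPO

/-!
# Squad BEO (MP_be01ff_an): balls in every odd dimension. All modules together.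
-/

namespace Pool.Agent.BEO.Fin

open Pool.Agent.BEO

theorem lpo : LpoStmt := H27.lpo

theorem evo : EvoStmt := H44.evo

theorem ibo : IboStmt := H60.ibo evo

theorem oro : OroStmt := H49.oro H95.coo evo ibo H19.weo

theorem spo : SpoStmt := H10.spo lpo (H77.fio lpo) H23.suo evo H69.deo oro

theorem pho : PhoStmt := H93P.pho lpo evo H95.coo ibo

/-- The balls in odd dimensions have an eigenvalue without resonances. -/
theorem bao : BaoStmt := H93.bao H93.aro spo pho

end Pool.Agent.BEO.Fin
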