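import Pool.Agent.BEO.Stmts
import Pool.Agent.Helper93_BEB.ARI

/-!
# Squad BEO, row ARO: zeros of the spherical Bessel functions
-/

namespace Pool.Agent.BEO.H93

open Filter Topology Finset Polynomial
open Pool.Agent.BEB (cf hs)
open Pool.Agent.BEB.H93
open scoped Nat

noncomputable section

/-! ## Zeros -/

/-- The functions `x^(2l+1) h_l(x)`. -/
def gg (l : ℕ) (x : ℝ) : ℝ := x ^ (2 * l + 1) * hs l x

theorem gg_zero (x : ℝ) : gg 0 x = Real.sin x := by
  unfold gg
  rw [mul_zero, zero_add, pow_one, hs_sin]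

theorem gg_one (x : ℝ) : gg 1 x = 3 * (Real.sin x - x * Real.cos x) := by
  unfold gg
  have h1 := hs_one x
  have h2 := hs_sin x
  linear_combination x * h1 + 3 * h2

theorem gg_rec (l : ℕ) (x : ℝ) :
    gg (l + 2) x = (2 * l + 3) * (2 * l + 5) * (gg (l + 1) x - x ^ 2 * gg l x) := by
  unfold gg
  have h1 := hs_rec l x
  have e1 : x ^ (2 * (l + 2) + 1) = x ^ (2 * l + 1) * x ^ 4 := by rw [← pow_add]; ring_nf
  have e2 : x ^ (2 * (l + 1) + 1) = x ^ (2 * l + 1) * x ^ 2 := by rw [← pow_add]; ring_nf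
  rw [e1, e2]
  linear_combination (x ^ (2 * l + 1) * x ^ 2) * h1

theorem gg_der (l : ℕ) : (∀ x, HasDerivAt (gg l) (if l = 0 then Real.cos x else
    (2 * l + 1) * x * gg (l - 1) x) x) ∧
    ∀ x, HasDerivAt (gg (l + 1)) ((2 * l + 3) * x * gg l x) x := by
  induction l with
  | zero =>
    have e0 : gg 0 = Real.sin := funext gg_zero
    have e1 : gg 1 = fun x => 3 * (Real.sin x - x * Real.cos x) := funext gg_one
    constructor
    · intro x
      rw [if_pos rfl, e0]
      exact Real.hasDerivAt_sin x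
    · intro x
      rw [zero_add, e0, e1]
      have h := ((Real.hasDerivAt_sin x).sub ((hasDerivAt_id x).mul
        (Real.hasDerivAt_cos x))).const_mul 3
      refine h.congr_deriv ?_
      simp only [id, Nat.cast_zero]
      ring
  | succ l ih =>
    constructor
    · intro x
      rw [if_neg (Nat.succ_ne_zero l)]
      refine (ih.2 x).congr_deriv ?_
      rw [Nat.add_sub_cancel]
      push_cast
      ring
    · intro x
      have e : gg (l + 1 + 1) = fun x =>
          (2 * l + 3) * (2 * l + 5) * (gg (l + 1) x - x ^ 2 * gg l x) := funext (gg_rec l)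
      rw [e]
      have h := ((ih.2 x).sub ((hasDerivAt_pow 2 x).mul (ih.1 x))).const_mul
        ((2 * (l : ℝ) + 3) * (2 * l + 5))
      refine h.congr_deriv ?_
      rcases Nat.eq_zero_or_pos l with h0 | h0
      · subst h0
        rw [if_pos rfl, zero_add, gg_one, gg_zero]
        push_cast
        ring
      · obtain ⟨m, rfl⟩ : ∃ m, l = m + 1 := ⟨l - 1, by omega⟩
        rw [if_neg (Nat.succ_ne_zero m), Nat.add_sub_cancel]
        have h1 := gg_rec m x
        rw [show m + 1 + 1 = m + 2 from rfl, h1]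
        push_cast
        ring

theorem hs_der (l : ℕ) (x : ℝ) (hx : 0 < x) :
    HasDerivAt (hs l) (- (x * hs (l + 1) x) / (2 * l + 3)) x := by
  have hx0 : x ≠ 0 := hx.ne'
  have h1 := (gg_der l).1 x
  have h2 : HasDerivAt (fun y : ℝ => y ^ (2 * l + 1)) (((2 * l + 1 : ℕ) : ℝ) * x ^ (2 * l)) x := by
    have := hasDerivAt_pow (2 * l + 1) x
    simpa using this
  have hp : x ^ (2 * l + 1) ≠ 0 := pow_ne_zero _ hx0
  have h3 := h1.div h2 hp
  have e : (fun y => gg l y / y ^ (2 * l + 1)) =ᶠ[𝓝 x] hs l := by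
    filter_upwards [lt_mem_nhds hx] with y hy
    unfold gg
    field_simp
  have h4 : HasDerivAt (hs l) _ x := h3.congr_of_eventuallyEq e.symm
  refine h4.congr_deriv ?_
  have h5 : (2 * (l : ℝ) + 3) ≠ 0 := by positivity
  rw [div_eq_div_iff (pow_ne_zero _ hp) h5]
  rcases Nat.eq_zero_or_pos l with h0 | h0
  · subst h0
    rw [if_pos rfl, gg_zero]
    have h6 := hs_one x
    have h7 := hs_sin x
    simp only [mul_zero, zero_add, pow_one, Nat.cast_one, pow_zero, Nat.cast_zero, mul_one,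
      one_mul]
    linear_combination x * h6 + 3 * h7
  · obtain ⟨m, rfl⟩ : ∃ m, l = m + 1 := ⟨l - 1, by omega⟩
    rw [if_neg (Nat.succ_ne_zero m), Nat.add_sub_cancel]
    have h6 := hs_rec m x
    unfold gg
    push_cast
    have e1 : x ^ (2 * (m + 1) + 1) = x ^ (2 * m + 1) * x ^ 2 := by rw [← pow_add]; ring_nf
    have e2 : x ^ (2 * (m + 1)) = x ^ (2 * m + 1) * x := by rw [← pow_succ]; ring_nf
    rw [e1, e2, show m + 1 + 1 = m + 2 from rfl]
    linear_combination (x ^ (2 * m + 1) * x ^ 3 * x ^ (2 * m + 1)) * h6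

theorem zeros (l : ℕ) : ∀ N : ℝ, ∃ x : ℝ, N < x ∧ 0 < x ∧ hs l x = 0 := by
  induction l with
  | zero =>
    intro N
    obtain ⟨n, hn⟩ := exists_nat_gt N
    have hpi : (1 : ℝ) ≤ Real.pi := by linarith [Real.two_le_pi]
    have h0 : 0 < ((n : ℝ) + 1) * Real.pi := by positivity
    refine ⟨((n : ℝ) + 1) * Real.pi, ?_, h0, ?_⟩
    · have : (0 : ℝ) ≤ n := Nat.cast_nonneg n
      nlinarith
    · have h1 := hs_sin (((n : ℝ) + 1) * Real.pi)
      have h2 : Real.sin (((n : ℝ) + 1) * Real.pi) = 0 := by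
        have := Real.sin_nat_mul_pi (n + 1)
        push_cast at this
        exact this
      rw [h2] at h1
      exact (mul_eq_zero.1 h1).resolve_left h0.ne'
  | succ l ih =>
    intro N
    obtain ⟨a, ha, ha0, haz⟩ := ih (max N 0)
    obtain ⟨b, hb, hb0, hbz⟩ := ih a
    have haN : N < a := lt_of_le_of_lt (le_max_left _ _) ha
    obtain ⟨c, hc, hcz⟩ := exists_hasDerivAt_eq_zero hb
      (fun x hx => (hs_der l x (lt_of_lt_of_le ha0 hx.1)).continuousAt.continuousWithinAt)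
      (haz.trans hbz.symm) (fun x hx => hs_der l x (ha0.trans hx.1))
    have hc0 : 0 < c := ha0.trans hc.1
    refine ⟨c, haN.trans hc.1, hc0, ?_⟩
    have h5 : (2 * (l : ℝ) + 3) ≠ 0 := by positivity
    have h6 := (div_eq_zero_iff.1 hcz).resolve_right h5
    have h7 := neg_eq_zero.1 h6
    exact (mul_eq_zero.1 h7).resolve_left hc0.ne'

/-! ## The polynomials `θ_l` at complex points -/

theorem tv_zero (z : ℂ) : tv 0 z = 1 := by simp [tv, th_zero]

theorem tv_one (z : ℂ) : tv 1 z = z + 1 := by simp [tv, th_one]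

theorem tv_at_zero (l : ℕ) : tv l 0 ≠ 0 ∧ tv (l + 1) 0 ≠ 0 := by
  induction l with
  | zero => simp [tv_zero, tv_one]
  | succ l ih =>
    refine ⟨ih.2, ?_⟩
    rw [show l + 1 + 1 = l + 2 from rfl, tv_succ]
    have h : (2 * (l : ℂ) + 3) ≠ 0 := by
      have : (2 * (l : ℂ) + 3) = ((2 * l + 3 : ℕ) : ℂ) := by push_cast; ring
      rw [this]
      exact_mod_cast (by omega : 2 * l + 3 ≠ 0)
    simp only [ne_eq, OfNat.ofNat_ne_zero, not_false_eq_true, zero_pow, zero_mul, add_zero]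
    exact mul_ne_zero h ih.2

theorem tv_not (z : ℂ) (hz : z ≠ 0) (l : ℕ) : ¬ (tv (l + 1) z = 0 ∧ tv l z = 0) := by
  induction l with
  | zero =>
    rintro ⟨_, h⟩
    rw [tv_zero] at h
    exact one_ne_zero h
  | succ l ih =>
    rintro ⟨h1, h2⟩
    apply ih
    refine ⟨h2, ?_⟩
    rw [show l + 1 + 1 = l + 2 from rfl, tv_succ, h2, mul_zero, zero_add] at h1
    exact (mul_eq_zero.1 h1).resolve_left (pow_ne_zero _ hz)

theorem tv_det (l : ℕ) (z : ℂ) :
    tv (l + 1) z * tv l (-z) - tv l z * tv (l + 1) (-z) = (-1) ^ l * 2 * z ^ (2 * l + 1) := by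
  induction l with
  | zero =>
    rw [zero_add, tv_one, tv_zero, tv_one, tv_zero]
    ring
  | succ l ih =>
    rw [show l + 1 + 1 = l + 2 from rfl, tv_succ, tv_succ]
    have e : z ^ (2 * (l + 1) + 1) = z ^ (2 * l + 1) * z ^ 2 := by rw [← pow_add]; ring_nf
    rw [e, pow_succ]
    linear_combination (- z ^ 2) * ih

theorem tv_root (l : ℕ) : ∃ w : ℂ, tv (l + 1) w = 0 := by
  have hdeg : 0 < ((th (l + 1)).map (Int.castRingHom ℂ)).degree := by
    by_contra h
    have h1 := Polynomial.eq_C_of_degree_le_zero (not_lt.1 h)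
    have h2 : derivative ((th (l + 1)).map (Int.castRingHom ℂ)) = 0 := by
      rw [h1, derivative_C]
    rw [derivative_map, th_der] at h2
    simp only [Polynomial.map_sub, Polynomial.map_mul, map_X] at h2
    have h3 := congrArg (fun P => eval 0 P) h2
    simp only [eval_sub, eval_mul, eval_X, zero_mul, sub_zero, eval_zero] at h3
    apply (tv_at_zero l).2
    unfold tv
    rw [aeval_def, ← eval_map]
    exact h3
  obtain ⟨w, hw⟩ := Complex.exists_root hdeg
  refine ⟨w, ?_⟩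
  unfold tv
  rw [aeval_def, ← eval_map]
  exact hw

theorem tv_double (z : ℂ) (hz : z ≠ 0) (l : ℕ) (h : tv l z = 0)
    (h' : aeval z (derivative (th l)) = 0) : False := by
  match l with
  | 0 => rw [tv_zero] at h; exact one_ne_zero h
  | (l + 1) =>
    rw [th_der, map_sub, map_mul, aeval_X] at h'
    have h1 : aeval z (th (l + 1)) = 0 := h
    rw [h1, zero_sub, neg_eq_zero] at h'
    exact tv_not z hz l ⟨h, (mul_eq_zero.1 h').resolve_left hz⟩

/-- The polynomial `θ_L(X)^n θ_l(-nX) - θ_L(-X)^n θ_l(nX)`. -/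
def Vp (L n l : ℕ) : ℤ[X] :=
  th L ^ n * (th l).comp (C (-(n : ℤ)) * X) - (th L).comp (-X) ^ n * (th l).comp (C (n : ℤ) * X)

theorem Vp_aeval (L n l : ℕ) (z : ℂ) :
    aeval z (Vp L n l) = tv L z ^ n * tv l (-(n * z)) - tv L (-z) ^ n * tv l (n * z) := by
  unfold Vp tv
  simp only [map_sub, map_mul, map_pow, aeval_comp, map_neg, aeval_X, aeval_C]
  have h5 : -(((algebraMap ℤ ℂ) (n : ℤ))) * z = -((n : ℂ) * z) := by simp
  have h6 : ((algebraMap ℤ ℂ) (n : ℤ)) * z = (n : ℂ) * z := by simp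
  rw [h5, h6]

theorem Vp_ne (L n l : ℕ) (hn : 2 ≤ n) : Vp (L + 1) n l ≠ 0 := by
  intro h
  obtain ⟨w, hw⟩ := tv_root L
  have hw0 : w ≠ 0 := by
    rintro rfl
    exact (tv_at_zero L).2 hw
  have hwn : tv (L + 1) (-w) ≠ 0 := by
    intro h1
    have h2 := tv_det L w
    rw [hw, h1, zero_mul, mul_zero, sub_zero] at h2
    have h3 : ((-1 : ℂ) ^ L * 2 * w ^ (2 * L + 1)) ≠ 0 :=
      mul_ne_zero (mul_ne_zero (pow_ne_zero _ (by norm_num)) two_ne_zero) (pow_ne_zero _ hw0)
    exact h3 h2.symm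
  obtain ⟨k, rfl⟩ : ∃ k, n = k + 2 := ⟨n - 2, by omega⟩
  have hn0 : ((k + 2 : ℕ) : ℂ) ≠ 0 := by exact_mod_cast (by omega : k + 2 ≠ 0)
  have h1 := Vp_aeval (L + 1) (k + 2) l (-w)
  rw [h, map_zero, neg_neg, hw, zero_pow (by omega), zero_mul, sub_zero, mul_neg, neg_neg] at h1
  have h3 : tv l (((k + 2 : ℕ) : ℂ) * w) = 0 :=
    (mul_eq_zero.1 h1.symm).resolve_left (pow_ne_zero _ hwn)
  have h2 : aeval (-w) (derivative (Vp (L + 1) (k + 2) l)) = 0 := by
    rw [h, derivative_zero, map_zero]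
  unfold Vp at h2
  simp only [derivative_sub, derivative_mul, derivative_pow, derivative_X, derivative_comp,
    derivative_C, derivative_neg, map_sub, map_mul, map_pow, map_add, aeval_X, aeval_comp,
    map_neg, aeval_C, map_one, map_zero, neg_neg, zero_mul, zero_add, mul_one] at h2
  have e4 : (algebraMap ℤ ℂ) ((k + 2 : ℕ) : ℤ) = ((k + 2 : ℕ) : ℂ) := by
    rw [algebraMap_int_eq, eq_intCast, Int.cast_natCast]
  have e5 : -(((algebraMap ℤ ℂ) ((k + 2 : ℕ) : ℤ))) * -w = ((k + 2 : ℕ) : ℂ) * w := by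
    rw [e4]
    ring
  have e6 : ((algebraMap ℤ ℂ) ((k + 2 : ℕ) : ℤ)) * -w = -(((k + 2 : ℕ) : ℂ) * w) := by
    rw [e4]
    ring
  rw [e5, e6, e4] at h2
  have h3' : aeval (((k + 2 : ℕ) : ℂ) * w) (th l) = 0 := h3
  have hw' : aeval w (th (L + 1)) = 0 := hw
  rw [h3', hw'] at h2
  have h7 : (0 : ℂ) ^ (k + 2 - 1) = 0 := zero_pow (by omega)
  have h8 : (0 : ℂ) ^ (k + 2) = 0 := zero_pow (by omega)
  rw [h7, h8] at h2
  simp only [mul_zero, zero_mul, zero_add, add_zero, sub_zero] at h2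
  refine tv_double (((k + 2 : ℕ) : ℂ) * w) (mul_ne_zero hn0 hw0) l h3 ?_
  have hwn' : aeval (-w) (th (L + 1)) ^ (k + 2) ≠ 0 := pow_ne_zero _ hwn
  have h9 := (mul_eq_zero.1 h2).resolve_left hwn'
  rcases mul_eq_zero.1 h9 with h10 | h10
  · exfalso
    apply hn0
    linear_combination - h10
  · exact h10

/-- row ARO -/
theorem aro : AroStmt := by
  intro L hL
  obtain ⟨L, rfl⟩ : ∃ m, L = m + 1 := ⟨L - 1, by omega⟩
  obtain ⟨x0, -, hx0, hx⟩ := zeros (L + 1) 0
  refine ⟨x0, hx0, hx, fun n l hn h => ?_⟩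
  set s0 : ℂ := x0 * Complex.I with hs0
  have hs0ne : s0 ≠ 0 := mul_ne_zero (by exact_mod_cast hx0.ne') Complex.I_ne_zero
  have hdd : ∀ l, (dd l : ℂ) ≠ 0 := fun l => by exact_mod_cast (dd_pos l).ne'
  have h1 := hs_cplx (L + 1) x0
  rw [hx, Complex.ofReal_zero, mul_zero] at h1
  have h2 : Complex.exp s0 * tv (L + 1) (-s0) - Complex.exp (-s0) * tv (L + 1) s0 = 0 :=
    (mul_eq_zero.1 h1).resolve_left (hdd _)
  have hE : Complex.exp s0 * Complex.exp (-s0) = 1 := by
    rw [← Complex.exp_add, add_neg_cancel, Complex.exp_zero]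
  -- `s0` is transcendental
  have htr : ¬ IsAlgebraic ℤ s0 := by
    intro hA
    have hQ : IsAlgebraic ℚ s0 := (IsFractionRing.isAlgebraic_iff ℤ ℚ ℂ).1 hA
    have hal : ∀ z : ℂ, IsAlgebraic ℚ z → ∀ l, IsAlgebraic ℚ (tv l z) ∧
        IsAlgebraic ℚ (tv (l + 1) z) := by
      intro z hz l
      have hone : IsAlgebraic ℚ (1 : ℂ) := isAlgebraic_one
      induction l with
      | zero =>
        rw [zero_add, tv_zero, tv_one]
        exact ⟨hone, hz.add hone⟩
      | succ l ih =>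
        refine ⟨ih.2, ?_⟩
        rw [show l + 1 + 1 = l + 2 from rfl, tv_succ]
        have h3 : IsAlgebraic ℚ (2 * (l : ℂ) + 3) := by
          have : (2 * (l : ℂ) + 3) = ((2 * l + 3 : ℕ) : ℂ) := by push_cast; ring
          rw [this]
          exact isAlgebraic_nat _
        exact (h3.mul ih.2).add ((hz.pow 2).mul ih.1)
    have hneg : tv (L + 1) (-s0) ≠ 0 := by
      intro h3
      rw [h3, mul_zero, zero_sub, neg_eq_zero] at h2
      have h4 := (mul_eq_zero.1 h2).resolve_left (Complex.exp_ne_zero _)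
      have h5 := tv_det L s0
      rw [h3, h4, zero_mul, mul_zero, sub_zero] at h5
      have h6 : ((-1 : ℂ) ^ L * 2 * s0 ^ (2 * L + 1)) ≠ 0 :=
        mul_ne_zero (mul_ne_zero (pow_ne_zero _ (by norm_num)) two_ne_zero)
          (pow_ne_zero _ hs0ne)
      exact h6 h5.symm
    have h3 : IsAlgebraic ℚ (2 * s0) := by
      rw [two_mul]
      exact hQ.add hQ
    apply hli (2 * s0) (mul_ne_zero two_ne_zero hs0ne) h3
    have h4 : Complex.exp (2 * s0) = tv (L + 1) s0 * (tv (L + 1) (-s0))⁻¹ := by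
      rw [eq_mul_inv_iff_mul_eq₀ hneg, two_mul, Complex.exp_add]
      linear_combination Complex.exp s0 * h2 + tv (L + 1) s0 * hE
    rw [h4]
    exact (hal s0 hQ L).2.mul (hal (-s0) hQ.neg L).2.inv
  apply htr
  refine ⟨Vp (L + 1) n l, Vp_ne L n l hn, ?_⟩
  rw [Vp_aeval]
  have h3 := hs_cplx l (n * x0)
  rw [h, Complex.ofReal_zero, mul_zero] at h3
  have h4 := (mul_eq_zero.1 h3).resolve_left (hdd l)
  have e1 : (((n * x0 : ℝ) : ℂ) * Complex.I) = n * s0 := by
    rw [hs0]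
    push_cast
    ring
  rw [e1] at h4
  have h5 : Complex.exp (n * s0) * tv (L + 1) (-s0) ^ n =
      Complex.exp (-(n * s0)) * tv (L + 1) s0 ^ n := by
    have e7 : Complex.exp (-(n * s0)) = Complex.exp (-s0) ^ n := by
      rw [← Complex.exp_nat_mul]
      congr 1
      ring
    rw [Complex.exp_nat_mul, e7, ← mul_pow, ← mul_pow, sub_eq_zero.1 h2]
  have h6 : Complex.exp (n * s0) * Complex.exp (-(n * s0)) = 1 := by
    rw [← Complex.exp_add, add_neg_cancel, Complex.exp_zero]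
  linear_combination (-(tv (L + 1) s0 ^ n * tv l (-(n * s0)) -
    tv (L + 1) (-s0) ^ n * tv l (n * s0))) * h6 +
    Complex.exp (-(n * s0)) * tv (L + 1) s0 ^ n * h4 -
    Complex.exp (-(n * s0)) * tv l (n * s0) * h5

end

end Pool.Agent.BEO.H93
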